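import Pool.Agent.H57.GE.Gm
import Pool.Agent.H51.TC.Grp
import Pool.Agent.H38.AS.Fin

/-!
# H57 GE GEX: the group data of theorem (M_c) exist
-/

set_option autoImplicit false

open H57.BRA H1.AR H48.MF H38.ML H38.BG H38.AS H51.TC
open scoped Classical commutatorElement

noncomputable section

namespace H57.GE

theorem ps_pow {G : Type} [Group G] [Finite G] {p : ℕ} (hp : p.Prime) (g : G) :
    ∃ a : ℕ, (orderOf (g ^ p ^ a)).Coprime p := by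
  obtain ⟨a, m, hm, h⟩ := Nat.exists_eq_pow_mul_and_not_dvd (orderOf_pos g).ne' p hp.ne_one
  refine ⟨a, ?_⟩
  rw [orderOf_pow, h, Nat.gcd_eq_right (Dvd.intro _ rfl), Nat.mul_div_cancel_left _ (pow_pos hp.pos a)]
  exact ((hp.coprime_iff_not_dvd).2 hm).symm

theorem pq_ex {G : Type} [Group G] [Finite G] {p : ℕ} (B : Bs G p) {N : ℕ} (P : Bs.Rp B N) :
    ∃ (P0 : Type) (_ : Group P0) (_ : Finite P0), IsPGroup p P0 ∧
      ∃ f : (G ⧸ B.T) →* P0, ∀ j, f.ker ≤ Bs.Hj P j := by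
  let J : Set (G ⧸ B.T) := {q | ∃ g : G, (orderOf g).Coprime p ∧ QuotientGroup.mk g = q}
  let S : Subgroup (G ⧸ B.T) := Subgroup.closure J
  haveI hS : S.Normal := by
    refine tn_normal ?_
    rintro q ⟨g, hg, rfl⟩ h
    obtain ⟨c, rfl⟩ := QuotientGroup.mk_surjective h
    refine ⟨c * g * c⁻¹, ?_, ?_⟩
    · have h1 : orderOf (c * g * c⁻¹) = orderOf g := by
        rw [← MulAut.conj_apply]
        exact orderOf_injective (MulAut.conj c).toMonoidHom (MulAut.conj c).injective g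
      rw [h1]
      exact hg
    · rw [QuotientGroup.mk_mul, QuotientGroup.mk_mul, QuotientGroup.mk_inv]
  refine ⟨(G ⧸ B.T) ⧸ S, inferInstance, inferInstance, ?_, QuotientGroup.mk' S, ?_⟩
  · intro x
    obtain ⟨q, rfl⟩ := QuotientGroup.mk_surjective x
    obtain ⟨g, rfl⟩ := QuotientGroup.mk_surjective q
    obtain ⟨a, ha⟩ := ps_pow B.pr g
    refine ⟨a, ?_⟩
    rw [← QuotientGroup.mk_pow, QuotientGroup.eq_one_iff, ← QuotientGroup.mk_pow]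
    exact Subgroup.subset_closure ⟨_, ha, rfl⟩
  · intro j
    rw [QuotientGroup.ker_mk', Subgroup.closure_le]
    rintro q ⟨g, hg, rfl⟩
    refine (Bs.mem_Hj P j _).2 ⟨g, ?_, rfl⟩
    exact (ge_cop B.pr B.T inferInstance (tn_pgroup B.h1 B.h2 B.h3) B.k (P.g j) (Bs.I_T _ (P.mem j)) (B.hk _ (P.mem j)) g hg).symm

theorem zc_ex {G : Type} [Group G] [Finite G] {p : ℕ} (B : Bs G p) : ∃ w : ℕ, Nonempty (Zc p w B.Z) := by
  obtain ⟨w, z, h1, h2, h3⟩ := coord B.pr B.Z (fun a ha b _ => B.Z_cen a ha b) B.Z_pow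
  exact ⟨w, ⟨⟨z, h1, h2, h3, fun a g => B.Z_cen _ ((h3 _).2 ⟨a, rfl⟩) g⟩⟩⟩

theorem vc_ex {G : Type} [Group G] [Finite G] {p : ℕ} (B : Bs G p) : ∃ u : ℕ, Nonempty (B.Vc u) := by
  obtain ⟨u, e, h1, h2, h3⟩ := coord B.pr (B.T.map (QuotientGroup.mk' B.Z)) (by
    rintro _ ⟨a, ha, rfl⟩ _ ⟨b, hb, rfl⟩
    rw [← map_mul, ← map_mul]
    refine (QuotientGroup.eq).2 ?_
    have h : (a * b)⁻¹ * (b * a) = ⁅b⁻¹, a⁻¹⁆ := by
      rw [commutatorElement_def]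
      group
    rw [h]
    exact Subgroup.commutator_mem_commutator (B.T.inv_mem hb) (B.T.inv_mem ha)) (by
    rintro _ ⟨a, ha, rfl⟩
    rw [← map_pow]
    exact (QuotientGroup.eq_one_iff _).2 (tn_pow B.h1 B.h2 a ha))
  refine ⟨u, ⟨⟨e, h1, h2, ?_⟩⟩⟩
  intro r
  rw [← h3]
  rfl

theorem gex0 {G : Type} [Group G] [Finite G] {p : ℕ} (B : Bs G p) (hI : B.I.Nonempty) :
    ∃ (u w N : ℕ) (R Q : Type) (_ : Group R) (_ : Group Q) (_ : Finite R) (_ : Fintype Q)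
      (Gm : GM p u w N G R Q), 1 ≤ N ∧ (∀ h : G, h ∈ B.I ↔ ∃ i, IsConj h (Gm.g i)) ∧
      (CF G → CF Q) ∧
      ((∀ z ∈ ⁅Subgroup.closure B.I, Subgroup.closure B.I⁆, z ≠ 1 → z ∈ B.I) → Gm.Cen) ∧
      (∀ θ : Fin w → ZMod p, (∀ x y, H63.MA.dt θ (Gm.M.om x y) = 0) → θ = 0) ∧ ∃ (P0 : Type) (_ : Group P0) (_ : Finite P0), IsPGroup p P0 ∧
        ∃ f : Q →* P0, ∀ j, f.ker ≤ Gm.M.H j := by
  obtain ⟨w, ⟨E⟩⟩ := zc_ex B
  obtain ⟨u, ⟨V⟩⟩ := vc_ex B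
  obtain ⟨N, hN, ⟨P⟩⟩ := Bs.rp_ex B
  obtain ⟨P0, i1, i2, hP0, f, hf⟩ := pq_ex B P
  haveI : Fintype (G ⧸ B.T) := Fintype.ofFinite _
  refine ⟨u, w, N, G ⧸ B.Z, G ⧸ B.T, inferInstance, inferInstance, inferInstance, inferInstance,
    Bs.gmd V E P, hN hI, ?_, fun h => cf_quot h B.T, Bs.gmd_cen V E P, Bs.gmd_sz V E P, P0, i1,
    i2, hP0, f, hf⟩
  intro h
  constructor
  · exact P.ex h
  · rintro ⟨i, hi⟩
    obtain ⟨c, hc⟩ := isConj_iff.1 hi.symm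
    rw [← hc]
    exact B.h2 _ (P.mem i) c

theorem gex {n : ℕ} (hn : 2 ≤ n) (G : Subgroup (Equiv.Perm (Fin n))) (hG : MulAction.IsPretransitive G (Fin n))
    (hT : ∃ k, ∀ g : G, g ≠ 1 → ind (g : Equiv.Perm (Fin n)) = indG G → g ∈ Subgroup.upperCentralSeries G k)
    (hZ : ∀ g h : G, g ≠ 1 → ind (g : Equiv.Perm (Fin n)) = indG G → h ≠ 1 → ind (h : Equiv.Perm (Fin n)) = indG G →
      ∀ k : G, k * (g * h * g⁻¹ * h⁻¹) = g * h * g⁻¹ * h⁻¹ * k)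
    :
    ∃ (p u w N : ℕ) (_ : p.Prime) (R Q : Type) (_ : Group R) (_ : Group Q) (_ : Finite R) (_ : Fintype Q)
      (Gm : GM p u w N G R Q), 1 ≤ N ∧
      (∀ h : G, (h ≠ 1 ∧ ind (h : Equiv.Perm (Fin n)) = indG G) ↔ ∃ i, IsConj h (Gm.g i)) ∧
      (CF G → CF Q) ∧
      (((∃ g : G, g ≠ 1 ∧ ind (g : Equiv.Perm (Fin n)) = indG G ∧ ∀ h : G, g * h = h * g) ∨
        ∀ g h : G, g ≠ 1 → ind (g : Equiv.Perm (Fin n)) = indG G → h ≠ 1 →
          ind (h : Equiv.Perm (Fin n)) = indG G → g * h = h * g) → Gm.Cen) ∧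
      (∀ θ : Fin w → ZMod p, (∀ x y, H63.MA.dt θ (Gm.M.om x y) = 0) → θ = 0) ∧
      ∃ (P0 : Type) (_ : Group P0) (_ : Finite P0), IsPGroup p P0 ∧
        ∃ f : Q →* P0, ∀ j, f.ker ≤ Gm.M.H j := by
  obtain ⟨p, hp, hpp⟩ := ge_prime hn G hG hT hZ
  obtain ⟨-, ⟨g₁, hg₁, hg₁'⟩, hmin, hcj, -⟩ := pidx_pos hn G hG
  obtain ⟨k, hk⟩ := hT
  have h1 : ∀ g ∈ {g : G | g ≠ 1 ∧ ind (g : Equiv.Perm (Fin n)) = indG G}, g ^ p = 1 := fun g hg => hpp g hg.1 hg.2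
  have h3 : ∀ g ∈ {g : G | g ≠ 1 ∧ ind (g : Equiv.Perm (Fin n)) = indG G},
      ∀ h ∈ {g : G | g ≠ 1 ∧ ind (g : Equiv.Perm (Fin n)) = indG G},
      ∀ k : G, k * (g * h * g⁻¹ * h⁻¹) = g * h * g⁻¹ * h⁻¹ * k := fun g hg h hh => hZ g h hg.1 hg.2 hh.1 hh.2
  let B : Bs G p := {
    pr := hp
    I := {g : G | g ≠ 1 ∧ ind (g : Equiv.Perm (Fin n)) = indG G}
    h0 := fun g hg => hg.1
    h1 := h1
    h2 := fun g hg h => ⟨fun he => hg.1 (by
      have h2 := conj_eq_one_iff.1 he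
      exact h2), hcj g h hg.1 hg.2⟩
    h3 := h3
    k := k
    hk := fun g hg => hk g hg.1 hg.2 }
  have hcen : ((∃ g : G, g ≠ 1 ∧ ind (g : Equiv.Perm (Fin n)) = indG G ∧ ∀ h : G, g * h = h * g) ∨
      ∀ g h : G, g ≠ 1 → ind (g : Equiv.Perm (Fin n)) = indG G → h ≠ 1 →
        ind (h : Equiv.Perm (Fin n)) = indG G → g * h = h * g) →
      ∀ z ∈ ⁅Subgroup.closure B.I, Subgroup.closure B.I⁆, z ≠ 1 → z ∈ B.I := by
      intro hc z hz hz1
      rcases hc with ⟨g₀, hg₀, hg₀', hg₀c⟩ | hcom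
      · have h0 := fin_cen G hG hp g₀ hg₀ (hpp g₀ hg₀ hg₀') hg₀c
        have hzp : z ^ p = 1 := tn_zpow h1 h3 z hz
        refine ⟨hz1, le_antisymm ?_ (hmin z hz1)⟩
        have h4 := fin_orbs hp (z : Equiv.Perm (Fin n)) (by
          rw [← Subgroup.coe_pow, hzp, Subgroup.coe_one])
        rw [← hg₀']
        unfold ind
        have h2 : orbs (Subgroup.zpowers (g₀ : Equiv.Perm (Fin n))) ≤
            orbs (Subgroup.zpowers (z : Equiv.Perm (Fin n))) := by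
          refine Nat.le_of_mul_le_mul_left ?_ hp.pos
          rw [h0]
          exact h4
        omega
      · exfalso
        apply hz1
        have h5 : ⁅Subgroup.closure {g : G | g ≠ 1 ∧ ind (g : Equiv.Perm (Fin n)) = indG G},
            Subgroup.closure {g : G | g ≠ 1 ∧ ind (g : Equiv.Perm (Fin n)) = indG G}⁆ = ⊥ := by
          rw [Subgroup.commutator_eq_bot_iff_le_centralizer, Subgroup.closure_le]
          intro x hx
          refine Subgroup.mem_centralizer_iff.2 ?_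
          intro y hy
          refine Subgroup.closure_induction (p := fun y _ => y * x = x * y) ?_ ?_ ?_ ?_ hy
          · intro y hy
            exact hcom y x hy.1 hy.2 hx.1 hx.2
          · rw [one_mul, mul_one]
          · intro a b _ _ ha hb
            rw [mul_assoc, hb, ← mul_assoc, ha, mul_assoc]
          · intro a _ ha
            rw [inv_mul_eq_iff_eq_mul, ← mul_assoc, ha, mul_inv_cancel_right]
        rw [h5] at hz
        exact Subgroup.mem_bot.1 hz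
  obtain ⟨u, w, N, R, Q, i1, i2, i3, i4, Gm, hN, hI, h1, h2, h3, h4⟩ := gex0 B ⟨g₁, hg₁, hg₁'⟩
  exact ⟨p, u, w, N, hp, R, Q, i1, i2, i3, i4, Gm, hN, hI, h1, fun hc => h2 (hcen hc), h3, h4⟩

end H57.GE
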