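import Pool.Agent.H57.GE.Tn
import Pool.Agent.H38.BG.PIdx

/-!
# [H57 GE PR] All elements of least index have the same prime order (150 lines)

`moved h = {x | h x ≠ x}`. The element `h` of least index has prime order `l` (`prime_of_least`, used in the proof of `pidx`), and
`ind h * l = (l - 1) * #moved h` (private `pidx_burnside` in H38/BG/PIdx.lean: copy it).
`pr_dvd`: `r ≠ l` prime: `r ^ v_r(n) ∣ #moved h`: let `T` = closure of the elements of least index and order `l` (conjugation stable: `pidx_pos`), an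
`l`-group (`tn_pgroup`), normal, in the hypercentre (`upperCentralSeries G k` is a subgroup), so by `ge_cop` `h` commutes with all elements of order prime
to `l`, in particular with a Sylow `r`-subgroup `R` of `G`. `R` acts on `moved h`. Every orbit of `R` on `Fin n` has cardinality divisible by `r ^ v_r(n)`:
`#R = #(orbit) * #(stabilizer)`, the stabilizer of `x` in `R` is an `r`-group contained in `G_x`, so its order is a power of `r` dividing `#G_x = #G / n`
(transitivity), `#R = r ^ v_r(#G)`; so `#orbit` is a power of `r` and at least `r ^ v_r(n)`. `#moved h` is the sum over the orbits contained in it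
(`MulAction.selfEquivSigmaOrbits` for the action of `R` on the subtype, or `Finset.card_eq_sum_card_fiberwise`).
`ge_prime`: two elements `h₁`, `h₂` of least index, of orders `p ≠ l`: `#moved h₁ (p - 1) l = #moved h₂ (l - 1) p`. For `r ≠ l`: `r ^ v_r(n) ∣ #moved h₂`. For
`r = l`: `l ^ v_l(n) ∣ #moved h₁` (`pr_dvd` for `h₁`, `l ≠ p`), so `l ^ (v_l(n) + 1) ∣ #moved h₂ (l - 1) p`, and `l` is prime to `(l - 1) p`. So `n l ∣ #moved h₂`,
but `0 < #moved h₂ ≤ n`: a contradiction.
-/

set_option autoImplicit false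

open H38.ML H38.BG

namespace H57.GE

/-- Burnside for a group of prime order -/
private theorem pr_burnside {n : ℕ} (g : Equiv.Perm (Fin n)) (hq : (orderOf g).Prime) :
    orbs (Subgroup.zpowers g) * orderOf g =
      n + (orderOf g - 1) * Nat.card {x : Fin n // g x = x} := by
  classical
  have : Fintype (Subgroup.zpowers g) := Fintype.ofFinite _
  have : Fintype (Quotient (MulAction.orbitRel (Subgroup.zpowers g) (Fin n))) :=
    Fintype.ofFinite _
  have h := MulAction.sum_card_fixedBy_eq_card_orbits_mul_card_group (Subgroup.zpowers g) (Fin n)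
  have hc : Fintype.card (Subgroup.zpowers g) = orderOf g := by
    rw [← Nat.card_eq_fintype_card, Nat.card_zpowers]
  have ho : orbs (Subgroup.zpowers g) =
      Fintype.card (Quotient (MulAction.orbitRel (Subgroup.zpowers g) (Fin n))) := by
    unfold orbs
    rw [← Nat.card_eq_fintype_card]
  rw [ho, ← hc, ← h, ← Finset.add_sum_erase _ _ (Finset.mem_univ (1 : Subgroup.zpowers g))]
  congr 1
  · have : MulAction.fixedBy (Fin n) (1 : Subgroup.zpowers g) = Set.univ := by
      ext x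
      simp
    rw [← Nat.card_eq_fintype_card, this, Nat.card_univ, Nat.card_fin]
  · have h1 : ∀ a ∈ (Finset.univ : Finset (Subgroup.zpowers g)).erase 1,
        Fintype.card (MulAction.fixedBy (Fin n) a) = Nat.card {x : Fin n // g x = x} := by
      intro a ha
      rw [← Nat.card_eq_fintype_card]
      have ha1 : a ≠ 1 := Finset.ne_of_mem_erase ha
      obtain ⟨a, haz⟩ := a
      obtain ⟨k, rfl⟩ := Subgroup.mem_zpowers_iff.1 haz
      have hk : ¬ ((orderOf g : ℕ) : ℤ) ∣ k := by
        intro hd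
        apply ha1
        apply Subtype.ext
        exact orderOf_dvd_iff_zpow_eq_one.1 hd
      have hco : IsCoprime k ((orderOf g : ℕ) : ℤ) :=
        ((Prime.coprime_iff_not_dvd (Nat.prime_iff_prime_int.1 hq)).2 hk).symm
      obtain ⟨u, v, huv⟩ := hco
      refine Nat.card_congr (Equiv.subtypeEquivRight fun x => ?_)
      constructor
      · intro hx
        have hx' : (g ^ k) x = x := hx
        have h2 : g = (g ^ k) ^ u * (g ^ (orderOf g)) ^ v := by
          rw [← zpow_natCast g, ← zpow_mul, ← zpow_mul, ← zpow_add]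
          conv_lhs => rw [← zpow_one g, ← huv]
          congr 1
          ring
        rw [h2, pow_orderOf_eq_one, one_zpow, mul_one]
        exact Equiv.Perm.zpow_apply_eq_self_of_apply_eq_self hx' _
      · intro hx
        change (g ^ k) x = x
        exact Equiv.Perm.zpow_apply_eq_self_of_apply_eq_self hx _
    rw [Finset.sum_congr rfl h1, Finset.sum_const, smul_eq_mul,
      Finset.card_erase_of_mem (Finset.mem_univ _), Finset.card_univ]

/-- `ind g * q = (q - 1) * #moved g` for `g` of prime order `q` -/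
private theorem pr_ind {n : ℕ} (g : Equiv.Perm (Fin n)) (hq : (orderOf g).Prime) :
    ind g * orderOf g = (orderOf g - 1) * Nat.card {x : Fin n // g x ≠ x} := by
  classical
  have hb := pr_burnside g hq
  have h1 : Nat.card {x : Fin n // g x = x} + Nat.card {x : Fin n // g x ≠ x} = n := by
    rw [Nat.card_eq_fintype_card, Nat.card_eq_fintype_card, Fintype.card_subtype_compl, Fintype.card_fin]
    have h2 := Fintype.card_subtype_le fun x : Fin n => g x = x
    rw [Fintype.card_fin] at h2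
    omega
  have horb : orbs (Subgroup.zpowers g) ≤ n := by
    have h2 := Nat.card_le_card_of_surjective _ (Quotient.mk_surjective
      (s := MulAction.orbitRel (Subgroup.zpowers g) (Fin n)))
    rw [Nat.card_fin] at h2
    exact h2
  obtain ⟨F, hF⟩ : ∃ F, F = Nat.card {x : Fin n // g x = x} := ⟨_, rfl⟩
  obtain ⟨m, hm⟩ : ∃ m, m = Nat.card {x : Fin n // g x ≠ x} := ⟨_, rfl⟩
  rw [← hF] at hb h1
  rw [← hm] at h1
  rw [← hm]
  have hq1 := hq.one_lt
  unfold ind
  obtain ⟨q, hqq⟩ : ∃ q, q = orderOf g := ⟨_, rfl⟩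
  rw [← hqq] at hb hq1 ⊢
  zify [horb, hq1.le]
  zify [hq1.le] at hb h1
  rw [← h1] at hb ⊢
  linear_combination -hb

/-- the orbits of a Sylow subgroup of a transitive group -/
private theorem pr_orbit {G : Type} [Group G] [Finite G] {n : ℕ} [MulAction G (Fin n)]
    (hG : MulAction.IsPretransitive G (Fin n)) (r : ℕ) (hr : r.Prime) (R : Sylow r G) (hn : n ≠ 0) (x : Fin n) :
    r ^ padicValNat r n ∣ (MulAction.orbit R x).ncard := by
  have : Fact r.Prime := ⟨hr⟩
  rw [← MulAction.index_stabilizer]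
  have h1 : Nat.card (MulAction.stabilizer R x) * (MulAction.stabilizer R x).index = Nat.card R :=
    Subgroup.card_mul_index _
  have h2 : Nat.card (MulAction.stabilizer G x) * n = Nat.card G := by
    have h3 := MulAction.index_stabilizer_of_transitive G x
    rw [Nat.card_fin] at h3
    have h4 := Subgroup.card_mul_index (MulAction.stabilizer G x)
    rw [h3] at h4
    exact h4
  have h4 : Nat.card (MulAction.stabilizer R x) ∣ Nat.card (MulAction.stabilizer G x) := by
    have f : ∀ a : MulAction.stabilizer R x, ((a : R) : G) ∈ MulAction.stabilizer G x := by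
      intro a
      exact a.2
    have hf : Function.Injective (((R : Subgroup G).subtype.comp (MulAction.stabilizer R x).subtype).codRestrict
        (MulAction.stabilizer G x) f) := by
      intro a b hab
      have h5 := congrArg Subtype.val hab
      exact Subtype.ext (Subtype.ext h5)
    exact Subgroup.card_dvd_of_injective _ hf
  obtain ⟨s, hs⟩ : ∃ s, s = Nat.card (MulAction.stabilizer R x) := ⟨_, rfl⟩
  obtain ⟨o, ho⟩ : ∃ o, o = (MulAction.stabilizer R x).index := ⟨_, rfl⟩
  obtain ⟨t, ht⟩ : ∃ t, t = Nat.card (MulAction.stabilizer G x) := ⟨_, rfl⟩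
  rw [Sylow.card_eq_multiplicity, ← h2, ← hs, ← ho, ← ht] at h1
  rw [← hs, ← ht] at h4
  rw [← ho]
  have ht0 : t ≠ 0 := by
    rw [ht]
    exact Nat.card_pos.ne'
  rw [Nat.factorization_mul ht0 hn, Finsupp.add_apply, pow_add] at h1
  rw [← Nat.factorization_def n hr]
  -- `s ∣ r ^ v(t)`
  have h6 : s ∣ r ^ t.factorization r := by
    have h7 : s ∣ r ^ (t.factorization r) * r ^ (n.factorization r) := ⟨o, h1.symm⟩
    rw [← pow_add] at h7
    obtain ⟨a, -, rfl⟩ := (Nat.dvd_prime_pow hr).1 h7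
    exact (hr.pow_dvd_iff_dvd_ordProj ht0).1 h4
  obtain ⟨c, hc⟩ := h6
  rw [hc, mul_assoc] at h1
  have hs0 : 0 < s := by
    rw [hs]
    exact Nat.card_pos
  exact ⟨c, by rw [Nat.eq_of_mul_eq_mul_left hs0 h1, mul_comm]⟩

private theorem pr_comm {n : ℕ} (hn : 2 ≤ n) (G : Subgroup (Equiv.Perm (Fin n))) (hG : MulAction.IsPretransitive G (Fin n))
    (hT : ∃ k, ∀ g : G, g ≠ 1 → ind (g : Equiv.Perm (Fin n)) = indG G → g ∈ Subgroup.upperCentralSeries G k)
    (hZ : ∀ g h : G, g ≠ 1 → ind (g : Equiv.Perm (Fin n)) = indG G → h ≠ 1 → ind (h : Equiv.Perm (Fin n)) = indG G →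
      ∀ k : G, k * (g * h * g⁻¹ * h⁻¹) = g * h * g⁻¹ * h⁻¹ * k)
    (h : G) (h1 : h ≠ 1) (h2 : ind (h : Equiv.Perm (Fin n)) = indG G) (g : G) (hg : (orderOf g).Coprime (orderOf h)) :
    g * h = h * g := by
  obtain ⟨k, hk⟩ := hT
  have hp := prime_of_least G h h1 h2
  obtain ⟨p, hpp⟩ : ∃ p, p = orderOf h := ⟨_, rfl⟩
  rw [← hpp] at hp hg
  obtain ⟨I, hI⟩ : ∃ I : Set G, I = {x : G | x ≠ 1 ∧ ind (x : Equiv.Perm (Fin n)) = indG G ∧ x ^ p = 1} := ⟨_, rfl⟩
  have i1 : ∀ x ∈ I, x ^ p = 1 := by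
    intro x hx
    rw [hI] at hx
    exact hx.2.2
  have i2 : ∀ x ∈ I, ∀ y : G, y * x * y⁻¹ ∈ I := by
    intro x hx y
    rw [hI] at hx ⊢
    obtain ⟨a, b, c⟩ := hx
    refine ⟨fun e => a ?_, (pidx_pos hn G hG).2.2.2.1 x y a b, ?_⟩
    · rw [mul_inv_eq_one] at e
      exact mul_eq_left.1 e
    · rw [conj_pow, c, mul_one, mul_inv_cancel]
  have i3 : ∀ x ∈ I, ∀ y ∈ I, ∀ z : G, z * (x * y * x⁻¹ * y⁻¹) = x * y * x⁻¹ * y⁻¹ * z := by
    intro x hx y hy z
    rw [hI] at hx hy
    exact hZ x y hx.1 hx.2.1 hy.1 hy.2.1 z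
  have hm : h ∈ I := by
    rw [hI]
    exact ⟨h1, h2, by rw [hpp]; exact pow_orderOf_eq_one h⟩
  exact ge_cop hp (Subgroup.closure I) (tn_normal i2) (tn_pgroup i1 i2 i3) k h (Subgroup.subset_closure hm) (hk h h1 h2)
    g hg

theorem pr_dvd {n : ℕ} (hn : 2 ≤ n) (G : Subgroup (Equiv.Perm (Fin n))) (hG : MulAction.IsPretransitive G (Fin n))
    (hT : ∃ k, ∀ g : G, g ≠ 1 → ind (g : Equiv.Perm (Fin n)) = indG G → g ∈ Subgroup.upperCentralSeries G k)
    (hZ : ∀ g h : G, g ≠ 1 → ind (g : Equiv.Perm (Fin n)) = indG G → h ≠ 1 → ind (h : Equiv.Perm (Fin n)) = indG G →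
      ∀ k : G, k * (g * h * g⁻¹ * h⁻¹) = g * h * g⁻¹ * h⁻¹ * k)
    (h : G) (h1 : h ≠ 1) (h2 : ind (h : Equiv.Perm (Fin n)) = indG G) (r : ℕ) (hr : r.Prime) (hne : r ≠ orderOf h) :
    r ^ padicValNat r n ∣ Nat.card {x : Fin n // (h : Equiv.Perm (Fin n)) x ≠ x} := by
  classical
  have : Fact r.Prime := ⟨hr⟩
  have hp := prime_of_least G h h1 h2
  obtain ⟨R⟩ : Nonempty (Sylow r G) := inferInstance
  have hc : ∀ g : R, (g : G) * h = h * (g : G) := by
    intro g
    refine pr_comm hn G hG hT hZ h h1 h2 g ?_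
    obtain ⟨j, hj⟩ := R.isPGroup' g
    have h3 : (g : G) ^ r ^ j = 1 := congrArg Subtype.val hj
    obtain ⟨i, -, hi⟩ := (Nat.dvd_prime_pow hr).1 (orderOf_dvd_of_pow_eq_one h3)
    rw [hi]
    exact Nat.Coprime.pow_left _ ((Nat.coprime_primes hr hp).2 hne)
  obtain ⟨S, hS⟩ : ∃ S : SubMulAction R (Fin n), (S : Set (Fin n)) = {x | (h : Equiv.Perm (Fin n)) x ≠ x} := by
    refine ⟨{ carrier := {x | (h : Equiv.Perm (Fin n)) x ≠ x}, smul_mem' := ?_ }, rfl⟩
    intro g x hx hgx
    apply hx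
    have e1 : h • ((g : G) • x) = (g : G) • x := hgx
    rw [← mul_smul, ← hc g, mul_smul] at e1
    exact (MulAction.injective (g : G)) e1
  have e : Nat.card {x : Fin n // (h : Equiv.Perm (Fin n)) x ≠ x} = Nat.card S := by
    refine Nat.card_congr (Equiv.subtypeEquivRight fun x => ?_)
    have : x ∈ (S : Set (Fin n)) ↔ (h : Equiv.Perm (Fin n)) x ≠ x := by
      rw [hS]
      exact Iff.rfl
    exact this.symm
  rw [e, Nat.card_congr (MulAction.selfEquivSigmaOrbits R S)]
  have : Fintype (MulAction.orbitRel.Quotient R S) := Fintype.ofFinite _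
  rw [Nat.card_sigma]
  refine Finset.dvd_sum fun ω _ => ?_
  rw [Nat.card_coe_set_eq, ← MulAction.index_stabilizer, SubMulAction.stabilizer_of_subMul, MulAction.index_stabilizer]
  exact pr_orbit hG r hr R (by omega) _

theorem ge_prime {n : ℕ} (hn : 2 ≤ n) (G : Subgroup (Equiv.Perm (Fin n))) (hG : MulAction.IsPretransitive G (Fin n))
    (hT : ∃ k, ∀ g : G, g ≠ 1 → ind (g : Equiv.Perm (Fin n)) = indG G → g ∈ Subgroup.upperCentralSeries G k)
    (hZ : ∀ g h : G, g ≠ 1 → ind (g : Equiv.Perm (Fin n)) = indG G → h ≠ 1 → ind (h : Equiv.Perm (Fin n)) = indG G →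
      ∀ k : G, k * (g * h * g⁻¹ * h⁻¹) = g * h * g⁻¹ * h⁻¹ * k) :
    ∃ p : ℕ, p.Prime ∧ ∀ g : G, g ≠ 1 → ind (g : Equiv.Perm (Fin n)) = indG G → g ^ p = 1 := by
  obtain ⟨hpos, ⟨g, hg, hgi⟩, -⟩ := pidx_pos hn G hG
  have hp := prime_of_least G g hg hgi
  refine ⟨orderOf g, hp, fun g' hg' hgi' => ?_⟩
  have hl := prime_of_least G g' hg' hgi'
  by_contra hcon
  have hne : orderOf g ≠ orderOf g' := by
    intro e
    rw [e] at hcon
    exact hcon (pow_orderOf_eq_one g')
  have a1 := pr_ind (g : Equiv.Perm (Fin n)) (by rw [Subgroup.orderOf_coe]; exact hp)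
  have a2 := pr_ind (g' : Equiv.Perm (Fin n)) (by rw [Subgroup.orderOf_coe]; exact hl)
  have b1 := pr_dvd hn G hG hT hZ g hg hgi (orderOf g') hl hne.symm
  have b2 := pr_dvd hn G hG hT hZ g' hg' hgi'
  rw [Subgroup.orderOf_coe, hgi] at a1
  rw [Subgroup.orderOf_coe, hgi'] at a2
  have hle : Nat.card {x : Fin n // (g' : Equiv.Perm (Fin n)) x ≠ x} ≤ n := by
    have h3 := Nat.card_le_card_of_injective
      (fun x : {x : Fin n // (g' : Equiv.Perm (Fin n)) x ≠ x} => (x : Fin n)) Subtype.val_injective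
    rwa [Nat.card_fin] at h3
  obtain ⟨p, hpp⟩ : ∃ p, p = orderOf g := ⟨_, rfl⟩
  obtain ⟨l, hll⟩ : ∃ l, l = orderOf g' := ⟨_, rfl⟩
  obtain ⟨m, hm⟩ : ∃ m, m = Nat.card {x : Fin n // (g : Equiv.Perm (Fin n)) x ≠ x} := ⟨_, rfl⟩
  obtain ⟨m', hm'⟩ : ∃ m', m' = Nat.card {x : Fin n // (g' : Equiv.Perm (Fin n)) x ≠ x} := ⟨_, rfl⟩
  rw [← hpp] at hp hne a1
  rw [← hll] at hl hne a2 b1 b2
  rw [← hm] at a1 b1
  rw [← hm'] at a2 b2 hle
  have hm0 : 0 < m' := by
    rcases Nat.eq_zero_or_pos m' with h0 | h0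
    · rw [h0, mul_zero] at a2
      have := Nat.mul_pos hpos hl.pos
      omega
    · exact h0
  have key : m * (p - 1) * l = m' * (l - 1) * p := by
    calc m * (p - 1) * l = ((p - 1) * m) * l := by ring
      _ = (indG G * l) * p := by rw [← a1]; ring
      _ = m' * (l - 1) * p := by rw [a2]; ring
  have : Fact l.Prime := ⟨hl⟩
  have h5 : l ^ (padicValNat l n + 1) ∣ m' := by
    have h6 : l ^ (padicValNat l n + 1) ∣ m' * ((l - 1) * p) := by
      rw [← mul_assoc, ← key, pow_succ]
      exact mul_dvd_mul (b1.mul_right _) dvd_rfl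
    refine Nat.Coprime.dvd_of_dvd_mul_right ?_ h6
    refine Nat.Coprime.pow_left _ (Nat.Coprime.mul_right ?_ ?_)
    · rw [Nat.Prime.coprime_iff_not_dvd hl]
      intro h7
      have h8 := Nat.le_of_dvd (by have := hl.one_lt; omega) h7
      have := hl.one_lt
      omega
    · exact (Nat.coprime_primes hl hp).2 hne.symm
  have h9 : n ∣ m' := by
    rw [Nat.dvd_iff_prime_pow_dvd_dvd]
    intro r k hr hk
    have : Fact r.Prime := ⟨hr⟩
    have hk2 : k ≤ padicValNat r n := (padicValNat_dvd_iff_le (by omega)).1 hk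
    rcases eq_or_ne r l with e | e
    · subst e
      exact (pow_dvd_pow _ (by omega)).trans h5
    · exact (pow_dvd_pow _ hk2).trans (b2 r hr e)
  have h10 : m' = n := le_antisymm hle (Nat.le_of_dvd hm0 h9)
  rw [h10, padicValNat_dvd_iff_le (by omega)] at h5
  omega

end H57.GE
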