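import Pool.Agent.H57.GE.Sc
import Pool.Agent.H57.GE.Pr

/-!
# H57 GE BS: the action of `Q = G ⧸ T` on the coordinates of `T ⧸ Z` and the commutator pairing
-/

set_option autoImplicit false

open H57.BRA
open scoped Classical

noncomputable section

namespace H57.GE

/-- a conjugation stable set of elements of order `p` in the hypercentre whose mutual commutators are central -/
structure Bs (G : Type) [Group G] (p : ℕ) where
  pr : p.Prime
  I : Set G
  h0 : ∀ g ∈ I, g ≠ 1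
  h1 : ∀ g ∈ I, g ^ p = 1
  h2 : ∀ g ∈ I, ∀ h : G, h * g * h⁻¹ ∈ I
  h3 : ∀ g ∈ I, ∀ h ∈ I, ∀ k : G, k * (g * h * g⁻¹ * h⁻¹) = g * h * g⁻¹ * h⁻¹ * k
  k : ℕ
  hk : ∀ g ∈ I, g ∈ Subgroup.upperCentralSeries G k

namespace Bs

variable {G : Type} [Group G] {p : ℕ} (B : Bs G p)

/-- the subgroup generated by the set -/
def T : Subgroup G := Subgroup.closure B.I

/-- the commutator subgroup of `T` -/
def Z : Subgroup G := ⁅B.T, B.T⁆

instance : B.T.Normal := tn_normal B.h2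

instance : B.Z.Normal := by
  unfold Z
  infer_instance

theorem Z_le : B.Z ≤ B.T := Subgroup.commutator_le_left _ _

theorem Z_cen (z : G) (hz : z ∈ B.Z) (g : G) : z * g = g * z := by
  have h := tn_center B.h3 hz
  exact (Subgroup.mem_center_iff.1 h g).symm

theorem Z_pow (z : G) (hz : z ∈ B.Z) : z ^ p = 1 := tn_zpow B.h1 B.h3 z hz

/-- the map `G ⧸ Z → G ⧸ T` -/
def π : G ⧸ B.Z →* G ⧸ B.T := QuotientGroup.map B.Z B.T (MonoidHom.id G) B.Z_le

theorem π_mk (g : G) : B.π (QuotientGroup.mk g) = QuotientGroup.mk g := rfl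

theorem π_sur : Function.Surjective B.π := by
  intro q
  obtain ⟨g, rfl⟩ := QuotientGroup.mk_surjective q
  exact ⟨QuotientGroup.mk g, rfl⟩

/-- coordinates of `T ⧸ Z` -/
structure Vc (u : ℕ) where
  e : (Fin u → ZMod p) → G ⧸ B.Z
  inj : Function.Injective e
  add : ∀ x y, e (x + y) = e x * e y
  mem : ∀ r, (∃ t ∈ B.T, QuotientGroup.mk t = r) ↔ ∃ x, e x = r

variable {B} {u w : ℕ} (V : B.Vc u) (E : Zc p w B.Z)

theorem Vc.zero : V.e 0 = 1 := by
  have h := V.add 0 0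
  rw [add_zero] at h
  exact left_eq_mul.1 h

theorem Vc.neg (x : Fin u → ZMod p) : V.e (-x) = (V.e x)⁻¹ := by
  rw [eq_inv_iff_mul_eq_one, ← V.add, neg_add_cancel, V.zero]

theorem Vc.comm (x y : Fin u → ZMod p) : V.e x * V.e y = V.e y * V.e x := by
  rw [← V.add, ← V.add, add_comm]

theorem π_e (x : Fin u → ZMod p) : B.π (V.e x) = 1 := by
  obtain ⟨t, ht, h⟩ := (V.mem _).2 ⟨x, rfl⟩
  rw [← h, π_mk]
  exact (QuotientGroup.eq_one_iff t).2 ht

theorem eker (r : G ⧸ B.Z) : B.π r = 1 ↔ ∃ x, V.e x = r := by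
  constructor
  · intro h
    obtain ⟨g, rfl⟩ := QuotientGroup.mk_surjective r
    rw [π_mk] at h
    exact (V.mem _).1 ⟨g, (QuotientGroup.eq_one_iff g).1 h, rfl⟩
  · rintro ⟨x, rfl⟩
    exact π_e V x

theorem cj_ex (r : G ⧸ B.Z) (x : Fin u → ZMod p) : ∃ y, V.e y = r * V.e x * r⁻¹ := by
  rw [← eker, map_mul, map_mul, π_e, mul_one, map_inv, mul_inv_cancel]

/-- conjugation on coordinates -/
def cj (r : G ⧸ B.Z) (x : Fin u → ZMod p) : Fin u → ZMod p := (cj_ex V r x).choose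

theorem cj_e (r : G ⧸ B.Z) (x : Fin u → ZMod p) : V.e (cj V r x) = r * V.e x * r⁻¹ := (cj_ex V r x).choose_spec

theorem cj_add (r : G ⧸ B.Z) (x y : Fin u → ZMod p) : cj V r (x + y) = cj V r x + cj V r y := by
  apply V.inj
  rw [V.add, cj_e, cj_e, cj_e, V.add]
  group

theorem cj_mul (r s : G ⧸ B.Z) (x : Fin u → ZMod p) : cj V (r * s) x = cj V r (cj V s x) := by
  apply V.inj
  rw [cj_e, cj_e, cj_e]
  group

theorem cj_ker (r s : G ⧸ B.Z) (h : B.π r = B.π s) (x : Fin u → ZMod p) : cj V r x = cj V s x := by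
  have h1 : B.π (s⁻¹ * r) = 1 := by
    rw [map_mul, map_inv, h, inv_mul_cancel]
  obtain ⟨v, hv⟩ := (eker V _).1 h1
  have h2 : r = s * V.e v := by
    rw [hv]
    group
  apply V.inj
  rw [cj_e, cj_e, h2]
  have h3 : V.e v * V.e x * (V.e v)⁻¹ = V.e x := by
    rw [V.comm, mul_inv_cancel_right]
  calc s * V.e v * V.e x * (s * V.e v)⁻¹ = s * (V.e v * V.e x * (V.e v)⁻¹) * s⁻¹ := by group
    _ = _ := by rw [h3]

/-- a lift to `G ⧸ Z` -/
def lf (q : G ⧸ B.T) : G ⧸ B.Z := (B.π_sur q).choose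

theorem lf_π (q : G ⧸ B.T) : B.π (lf q) = q := (B.π_sur q).choose_spec

/-- the action -/
def act (q : G ⧸ B.T) : (Fin u → ZMod p) →ₗ[ZMod p] (Fin u → ZMod p) :=
  AddMonoidHom.toZModLinearMap p (AddMonoidHom.mk' (cj V (lf q)) (cj_add V (lf q)))

theorem act_eq (q : G ⧸ B.T) (x : Fin u → ZMod p) : act V q x = cj V (lf q) x := rfl

theorem act_π (r : G ⧸ B.Z) (x : Fin u → ZMod p) : act V (B.π r) x = cj V r x := by
  rw [act_eq]
  exact cj_ker V _ _ (lf_π _) x

theorem act_one (x : Fin u → ZMod p) : act V (1 : G ⧸ B.T) x = x := by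
  rw [← B.π.map_one, act_π]
  apply V.inj
  rw [cj_e]
  group

theorem act_mul (q q' : G ⧸ B.T) (x : Fin u → ZMod p) : act V (q * q') x = act V q (act V q' x) := by
  obtain ⟨r, rfl⟩ := B.π_sur q
  obtain ⟨s, rfl⟩ := B.π_sur q'
  rw [← map_mul, act_π, act_π, act_π, cj_mul]

theorem conj (r : G ⧸ B.Z) (x : Fin u → ZMod p) : r * V.e x * r⁻¹ = V.e (act V (B.π r) x) := by
  rw [act_π, cj_e]

/-- the commutator pairing -/
def om : (Fin u → ZMod p) →ₗ[ZMod p] (Fin u → ZMod p) →ₗ[ZMod p] (Fin w → ZMod p) :=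
  AddMonoidHom.toZModLinearMap p (AddMonoidHom.mk'
    (fun x => AddMonoidHom.toZModLinearMap p (AddMonoidHom.mk' (fun y => kc E (V.e x) (V.e y)) (by
      intro y y'
      show kc E (V.e x) (V.e (y + y')) = _
      rw [V.add, kc_mul_right E _ _ _ (V.comm _ _) (V.comm _ _)]))) (by
    intro x x'
    refine LinearMap.ext fun y => ?_
    show kc E (V.e (x + x')) (V.e y) = kc E (V.e x) (V.e y) + kc E (V.e x') (V.e y)
    rw [V.add, kc_mul_left E _ _ _ (V.comm _ _) (V.comm _ _)]))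

theorem om_eq (x y : Fin u → ZMod p) : om V E x y = kc E (V.e x) (V.e y) := rfl

end Bs

end H57.GE
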