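import Pool.Agent.H38.BG.PGe

/-!
# [H57 GE CO] Coordinates of elementary abelian subgroups (30 lines)
-/

set_option autoImplicit false

namespace H57.GE

theorem coord {H : Type} [Group H] {p : ℕ} (hp : p.Prime) (A : Subgroup H) [Finite A]
    (hc : ∀ a ∈ A, ∀ b ∈ A, a * b = b * a) (hA : ∀ a ∈ A, a ^ p = 1) :
    ∃ (w : ℕ) (z : (Fin w → ZMod p) → H), Function.Injective z ∧ (∀ a b, z (a + b) = z a * z b) ∧
      ∀ h, h ∈ A ↔ ∃ a, z a = h := by
  haveI := Fact.mk hp
  let _ : CommGroup A := { (inferInstance : Group A) with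
    mul_comm := fun a b => Subtype.ext (hc a.1 a.2 b.1 b.2) }
  let _ : Module (ZMod p) (Additive A) := AddCommGroup.zmodModule (n := p) (by
    intro x
    apply Additive.toMul.injective
    rw [toMul_nsmul, toMul_zero]
    exact Subtype.ext (hA _ (Additive.toMul x).2))
  haveI : Finite (Additive A) := inferInstanceAs (Finite A)
  obtain ⟨w, ⟨e⟩⟩ := H38.BG.PGe_basis0 p (Additive A)
  refine ⟨w, fun a => ((Additive.toMul (e.symm a) : A) : H), ?_, ?_, ?_⟩
  · intro a b hab
    exact e.symm.injective (Additive.toMul.injective (Subtype.ext hab))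
  · intro a b
    show ((Additive.toMul (e.symm (a + b)) : A) : H) = _
    rw [map_add, toMul_add]
    rfl
  · intro h
    constructor
    · intro hh
      refine ⟨e (Additive.ofMul ⟨h, hh⟩), ?_⟩
      show ((Additive.toMul (e.symm (e (Additive.ofMul ⟨h, hh⟩))) : A) : H) = h
      rw [e.symm_apply_apply]
      rfl
    · rintro ⟨a, rfl⟩
      exact (Additive.toMul (e.symm a)).2

end H57.GE
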