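import Pool.Agent.H57.GE.Bs
import Pool.Agent.H48.MF.Defs

/-!
# H57 GE GM: the group data `GM` of theorem (M_c)
-/

set_option autoImplicit false

open H57.BRA H1.AR H48.MF
open scoped Classical

noncomputable section

namespace H57.GE

namespace Bs

variable {G : Type} [Group G] {p : ℕ} {B : Bs G p}

/-- representatives of the classes in the set -/
structure Rp (B : Bs G p) (N : ℕ) where
  g : Fin N → G
  mem : ∀ i, g i ∈ B.I
  ex : ∀ h ∈ B.I, ∃ i, IsConj h (g i)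
  uni : ∀ i j, IsConj (g i) (g j) → i = j

theorem rp_ex [Finite G] (B : Bs G p) : ∃ N : ℕ, (B.I.Nonempty → 1 ≤ N) ∧ Nonempty (Rp B N) := by
  let C : Type := {c : ConjClasses G // ∃ g ∈ B.I, ConjClasses.mk g = c}
  haveI : Finite (ConjClasses G) := Finite.of_surjective _ ConjClasses.mk_surjective
  haveI : Finite C := Subtype.finite
  obtain ⟨N, ⟨ε⟩⟩ := Finite.exists_equiv_fin C
  have h1 : ∀ i : Fin N, ∃ g ∈ B.I, ConjClasses.mk g = (ε.symm i).1 := fun i => (ε.symm i).2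
  choose g hg hgc using h1
  refine ⟨N, ?_, ⟨⟨g, hg, ?_, ?_⟩⟩⟩
  · rintro ⟨a, ha⟩
    have h2 : Fin N := ε ⟨ConjClasses.mk a, a, ha, rfl⟩
    exact Nat.one_le_iff_ne_zero.2 (fun h => by
      subst h
      exact h2.elim0)
  · intro h hh
    refine ⟨ε ⟨ConjClasses.mk h, h, hh, rfl⟩, ?_⟩
    rw [← ConjClasses.mk_eq_mk_iff_isConj, hgc, Equiv.symm_apply_apply]
  · intro i j hij
    rw [← ConjClasses.mk_eq_mk_iff_isConj, hgc, hgc] at hij
    exact ε.symm.injective (Subtype.ext hij)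

theorem I_T (g : G) (hg : g ∈ B.I) : g ∈ B.T := Subgroup.subset_closure hg

variable {u w N : ℕ} (V : B.Vc u) (E : Zc p w B.Z) (P : Rp B N)

theorem y_ex (j : Fin N) : ∃ x, V.e x = QuotientGroup.mk (P.g j) :=
  (V.mem _).1 ⟨P.g j, I_T _ (P.mem j), rfl⟩

/-- coordinates of the representatives -/
def y (j : Fin N) : Fin u → ZMod p := (y_ex V P j).choose

theorem y_e (j : Fin N) : V.e (y V P j) = QuotientGroup.mk (P.g j) := (y_ex V P j).choose_spec

/-- the image of the centralizer of `g j` in `Q` -/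
def Hj (j : Fin N) : Subgroup (G ⧸ B.T) := (Subgroup.centralizer {P.g j}).map (QuotientGroup.mk' B.T)

theorem mem_Hj (j : Fin N) (q : G ⧸ B.T) : q ∈ Hj P j ↔ ∃ c : G, P.g j * c = c * P.g j ∧ QuotientGroup.mk c = q := by
  constructor
  · rintro ⟨c, hc, h⟩
    refine ⟨c, ?_, h⟩
    exact (Subgroup.mem_centralizer_iff.1 hc) _ (Set.mem_singleton _)
  · rintro ⟨c, hc, h⟩
    refine ⟨c, ?_, h⟩
    refine Subgroup.mem_centralizer_iff.2 ?_
    intro x hx
    rw [Set.mem_singleton_iff.1 hx]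
    exact hc

theorem fixy (j : Fin N) (q : G ⧸ B.T) (hq : q ∈ Hj P j) : act V q (y V P j) = y V P j := by
  obtain ⟨c, hc, rfl⟩ := (mem_Hj P j q).1 hq
  rw [← π_mk, act_π]
  apply V.inj
  rw [cj_e, y_e, ← QuotientGroup.mk_mul, ← QuotientGroup.mk_inv, ← QuotientGroup.mk_mul, ← hc, mul_inv_cancel_right]

theorem mem_om (j : Fin N) (r : G ⧸ B.Z) (hr : B.π r ∈ Hj P j) :
    ∃ x, kc E (V.e (y V P j)) r = om V E (y V P j) x := by
  obtain ⟨c, hc, h⟩ := (mem_Hj P j _).1 hr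
  have h1 : B.π ((QuotientGroup.mk c)⁻¹ * r) = 1 := by
    rw [map_mul, map_inv, π_mk, h, inv_mul_cancel]
  obtain ⟨x, hx⟩ := (eker V _).1 h1
  have h2 : r = QuotientGroup.mk c * V.e x := by
    rw [hx, mul_inv_cancel_left]
  refine ⟨x, ?_⟩
  have h3 : (QuotientGroup.mk (P.g j) : G ⧸ B.Z) * QuotientGroup.mk c = QuotientGroup.mk c * QuotientGroup.mk (P.g j) := by
    rw [← QuotientGroup.mk_mul, hc, QuotientGroup.mk_mul]
  rw [h2, kc_mul_right E _ _ _ (by rw [y_e, h3]) (V.comm _ _), om_eq]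
  have h4 : kc E (V.e (y V P j)) (QuotientGroup.mk c) = 0 := by
    apply E.eq_zero
    rw [y_e, kc_comm E _ _ h3, hc]
    group
  rw [h4, zero_add]

theorem memH (j : Fin N) (r : G ⧸ B.Z) (h1 : act V (B.π r) (y V P j) = y V P j)
    (h2 : ∃ x, kc E (V.e (y V P j)) r = om V E (y V P j) x) : B.π r ∈ Hj P j := by
  obtain ⟨x, hx⟩ := h2
  obtain ⟨t, ht, hte⟩ := (V.mem (V.e x)).2 ⟨x, rfl⟩
  obtain ⟨g, rfl⟩ := QuotientGroup.mk_surjective r
  rw [act_π] at h1
  have h3 : (QuotientGroup.mk g : G ⧸ B.Z) * V.e (y V P j) * (QuotientGroup.mk g)⁻¹ = V.e (y V P j) := by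
    rw [← cj_e, h1]
  have h4 : V.e (y V P j) * QuotientGroup.mk g = QuotientGroup.mk g * V.e (y V P j) := by
    rw [mul_inv_eq_iff_eq_mul] at h3
    exact h3.symm
  refine (mem_Hj P j _).2 ⟨g * t⁻¹, ?_, ?_⟩
  · have h5 : V.e (y V P j) * (V.e x)⁻¹ = (V.e x)⁻¹ * V.e (y V P j) := by
      rw [← V.neg, V.comm]
    have h6 := kc_mul_right E (V.e (y V P j)) (QuotientGroup.mk g) (V.e x)⁻¹ h4 h5
    have h7 : kc E (V.e (y V P j)) (V.e x)⁻¹ = -kc E (V.e (y V P j)) (V.e x) := by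
      rw [← V.neg, ← om_eq, map_neg, om_eq]
    rw [h7, hx, om_eq, add_neg_cancel] at h6
    have h8 : (QuotientGroup.mk (P.g j) : G ⧸ B.Z) * QuotientGroup.mk (g * t⁻¹) = QuotientGroup.mk (g * t⁻¹) * QuotientGroup.mk (P.g j) := by
      rw [QuotientGroup.mk_mul B.Z g, QuotientGroup.mk_inv, hte, ← y_e V P j, ← mul_assoc, h4, mul_assoc, h5, mul_assoc]
    have h9 := kc_comm E (P.g j) (g * t⁻¹) h8
    rw [← y_e V P j, QuotientGroup.mk_mul B.Z g, QuotientGroup.mk_inv, hte, h6, E.zero] at h9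
    have h10 : P.g j * (g * t⁻¹) * (P.g j)⁻¹ * (g * t⁻¹)⁻¹ = 1 := h9.symm
    rw [mul_inv_eq_one, mul_inv_eq_iff_eq_mul] at h10
    exact h10
  · rw [π_mk, QuotientGroup.mk_mul, QuotientGroup.mk_inv, (QuotientGroup.eq_one_iff t).2 ht, inv_one, mul_one]

theorem gen (M : Submodule (ZMod p) (Fin u → ZMod p)) (hM : ∀ q : G ⧸ B.T, ∀ x ∈ M, act V q x ∈ M)
    (hy : ∀ j, y V P j ∈ M) : M = ⊤ := by
  have h1 : ∀ t ∈ B.T, ∃ x ∈ M, V.e x = QuotientGroup.mk t := by
    intro t ht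
    refine Subgroup.closure_induction (k := B.I) (p := fun t _ => ∃ x ∈ M, V.e x = QuotientGroup.mk t) ?_ ?_ ?_ ?_ ht
    · intro h hh
      obtain ⟨i, hi⟩ := P.ex h hh
      obtain ⟨c, hc⟩ := isConj_iff.1 hi.symm
      refine ⟨act V (B.π (QuotientGroup.mk c)) (y V P i), hM _ _ (hy i), ?_⟩
      rw [← conj, y_e, ← hc, QuotientGroup.mk_mul, QuotientGroup.mk_mul, QuotientGroup.mk_inv]
    · exact ⟨0, M.zero_mem, by rw [V.zero]; rfl⟩
    · rintro a b _ _ ⟨x, hx, hxe⟩ ⟨x', hx', hxe'⟩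
      exact ⟨x + x', M.add_mem hx hx', by rw [V.add, hxe, hxe', QuotientGroup.mk_mul]⟩
    · rintro a _ ⟨x, hx, hxe⟩
      exact ⟨-x, M.neg_mem hx, by rw [V.neg, hxe, QuotientGroup.mk_inv]⟩
  refine Submodule.eq_top_iff'.2 ?_
  intro x
  obtain ⟨t, ht, hte⟩ := (V.mem (V.e x)).2 ⟨x, rfl⟩
  obtain ⟨x', hx', hxe⟩ := h1 t ht
  rwa [V.inj (hxe.trans hte)] at hx'

/-- the data `MG` -/
def mgd : MG p u w N (G ⧸ B.Z) (G ⧸ B.T) where
  π := B.π
  πs := B.π_sur
  e := V.e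
  einj := V.inj
  eadd := V.add
  eker := eker V
  act := act V
  act_one := act_one V
  act_mul := act_mul V
  conj := conj V
  c := fun k r s => cc E r s k
  coc := cc_coc E
  om := om V E
  iv_om := fun _ _ _ => rfl
  y := y V P
  H := Hj P
  fixy := fun j q hq => fixy V P j q hq
  mem_om := fun j r hr => by
    obtain ⟨x, hx⟩ := mem_om V E P j r hr
    exact ⟨x, fun k => congrFun hx k⟩
  gen := gen V P

/-- the data `GM` -/
def gmd : GM p u w N G (G ⧸ B.Z) (G ⧸ B.T) where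
  M := mgd V E P
  pr := QuotientGroup.mk' B.Z
  prs := QuotientGroup.mk'_surjective _
  z := E.z
  zinj := E.inj
  zadd := E.add
  zcen := E.cen
  zker := fun g => (QuotientGroup.eq_one_iff g).trans (E.mem g)
  zcom := fun a => by
    have h : E.z a ∈ B.Z := (E.mem _).2 ⟨a, rfl⟩
    exact Subgroup.commutator_mono le_top le_top h
  sec := sc B.Z
  sec_pr := sc_mk
  sec_mul := cc_mul E
  g := P.g
  gy := fun i => (y_e V P i).symm
  gp := fun i => B.h1 _ (P.mem i)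
  gne := fun i => B.h0 _ (P.mem i)
  uni := P.uni
  memH := fun j r h1 h2 => by
    obtain ⟨x, hx⟩ := h2
    exact memH V E P j r h1 ⟨x, funext hx⟩

theorem gmd_cen (hcen : ∀ z ∈ ⁅Subgroup.closure B.I, Subgroup.closure B.I⁆, z ≠ 1 → z ∈ B.I) :
    (gmd V E P).Cen := by
  intro a ha
  have h : E.z a ∈ B.I := hcen _ ((E.mem _).2 ⟨a, rfl⟩) (fun h => ha (E.eq_zero h))
  obtain ⟨i, hi⟩ := P.ex _ h
  obtain ⟨c, hc⟩ := isConj_iff.1 hi
  refine ⟨i, ?_⟩
  change P.g i = E.z a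
  rw [← hc, ← E.cen a c, mul_inv_cancel_right]

/-- the commutators of `V` generate `Z` -/
theorem gmd_sz (θ : Fin w → ZMod p)
    (h : ∀ x y, H63.MA.dt θ ((gmd V E P).M.om x y) = 0) : θ = 0 := by
  have key : ∀ z ∈ B.Z, ∀ a, E.z a = z → H63.MA.dt θ a = 0 := by
    intro z hz
    have h0 : z ∈ ⁅B.T, B.T⁆ := hz
    rw [Subgroup.commutator_def] at h0
    refine Subgroup.closure_induction (p := fun z _ => ∀ a, E.z a = z → H63.MA.dt θ a = 0)
      ?_ ?_ ?_ ?_ h0
    · rintro _ ⟨s, hs, t, ht, rfl⟩ a ha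
      obtain ⟨x, hx⟩ := (V.mem _).1 ⟨s, hs, rfl⟩
      obtain ⟨y, hy⟩ := (V.mem _).1 ⟨t, ht, rfl⟩
      have h1 : a = (gmd V E P).M.om x y := by
        apply E.inj
        change E.z a = E.z (kc E (V.e x) (V.e y))
        rw [ha, hx, hy, kc_comm E s t (by rw [← hx, ← hy]; exact V.comm _ _)]
        rfl
      rw [h1]
      exact h x y
    · intro a ha
      have h1 : a = 0 := E.eq_zero ha
      rw [h1]
      unfold H63.MA.dt
      exact Finset.sum_eq_zero fun k _ => mul_zero _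
    · intro s t hs ht h1 h2 a ha
      obtain ⟨a1, ha1⟩ := (E.mem s).1 (by
        unfold Z
        rw [Subgroup.commutator_def]
        exact hs)
      obtain ⟨a2, ha2⟩ := (E.mem t).1 (by
        unfold Z
        rw [Subgroup.commutator_def]
        exact ht)
      have h3 : a = a1 + a2 := E.inj (by rw [ha, E.add, ha1, ha2])
      have h4 := h1 a1 ha1
      have h5 := h2 a2 ha2
      rw [h3]
      unfold H63.MA.dt at h4 h5 ⊢
      simp only [Pi.add_apply, mul_add, Finset.sum_add_distrib]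
      rw [h4, h5, add_zero]
    · intro s hs h1 a ha
      have h3 : E.z (-a) = s := by
        have h4 : E.z (-a) * E.z a = 1 := by
          rw [← E.add, neg_add_cancel, E.zero]
        rw [ha, mul_inv_eq_one] at h4
        exact h4
      have h5 := h1 (-a) h3
      unfold H63.MA.dt at h5 ⊢
      simp only [Pi.neg_apply, mul_neg, Finset.sum_neg_distrib, neg_eq_zero] at h5
      exact h5
  funext k
  have h1 := key (E.z (Pi.single k 1)) ((E.mem _).2 ⟨_, rfl⟩) _ rfl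
  unfold H63.MA.dt at h1
  rw [Finset.sum_eq_single k] at h1
  · rw [Pi.single_eq_same, mul_one] at h1
    exact h1
  · intro j _ hj
    rw [Pi.single_eq_of_ne hj, mul_zero]
  · intro hk
    exact absurd (Finset.mem_univ k) hk

end Bs

end H57.GE
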