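import Pool.Agent.H57.GE.Co
import Pool.Agent.H57.BRA.Def

/-!
# [H57 GE SC] Sections, cocycles and commutators

`Z` a central subgroup of `G` with coordinates `z`. `sc`: a section of `G → G ⧸ Z`, `cc` its cocycle, `kc r s` the commutator of lifts of commuting `r`, `s`.
-/

set_option autoImplicit false

open H57.BRA
open scoped Classical

noncomputable section

namespace H57.GE

/-- coordinates of a central subgroup -/
structure Zc (p w : ℕ) {G : Type} [Group G] (Z : Subgroup G) where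
  z : (Fin w → ZMod p) → G
  inj : Function.Injective z
  add : ∀ a b, z (a + b) = z a * z b
  mem : ∀ h, h ∈ Z ↔ ∃ a, z a = h
  cen : ∀ a g, z a * g = g * z a

variable {G : Type} [Group G] {p w : ℕ} {Z : Subgroup G} [Z.Normal] (E : Zc p w Z)

namespace Zc

omit [Z.Normal] in
theorem zero : E.z 0 = 1 := by
  have h := E.add 0 0
  rw [add_zero] at h
  exact left_eq_mul.1 h

omit [Z.Normal] in
theorem eq_zero {a : Fin w → ZMod p} (h : E.z a = 1) : a = 0 := E.inj (h.trans E.zero.symm)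

omit [Z.Normal] in
theorem neg (a : Fin w → ZMod p) : E.z (-a) = (E.z a)⁻¹ := by
  rw [eq_inv_iff_mul_eq_one, ← E.add, neg_add_cancel, E.zero]

omit [Z.Normal] in
theorem sub (a b : Fin w → ZMod p) : E.z (a - b) = E.z a * (E.z b)⁻¹ := by
  rw [sub_eq_add_neg, E.add, E.neg]

end Zc

/-- a section with value `1` at `1` -/
def sc (Z : Subgroup G) [Z.Normal] (r : G ⧸ Z) : G := if r = 1 then 1 else r.out

theorem sc_mk (r : G ⧸ Z) : (QuotientGroup.mk (sc Z r) : G ⧸ Z) = r := by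
  unfold sc
  split_ifs with h
  · rw [h]
    rfl
  · exact QuotientGroup.out_eq' r

theorem sc_one : sc Z 1 = 1 := if_pos rfl

theorem sc_ex (r s : G ⧸ Z) : ∃ a, E.z a = sc Z r * sc Z s * (sc Z (r * s))⁻¹ := by
  apply (E.mem _).1
  rw [← QuotientGroup.eq_one_iff, QuotientGroup.mk_mul, QuotientGroup.mk_mul, QuotientGroup.mk_inv, sc_mk, sc_mk, sc_mk,
    mul_inv_cancel]

/-- the cocycle -/
def cc (r s : G ⧸ Z) : Fin w → ZMod p := (sc_ex E r s).choose

theorem cc_mul (r s : G ⧸ Z) : sc Z r * sc Z s = E.z (cc E r s) * sc Z (r * s) := by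
  have h : E.z (cc E r s) = _ := (sc_ex E r s).choose_spec
  rw [h, inv_mul_cancel_right]

theorem cc_coc (k : Fin w) : Coc p (fun r s => cc E r s k) where
  l1 := by
    intro a
    have h := cc_mul E 1 a
    rw [sc_one, one_mul, one_mul] at h
    have h1 := E.eq_zero (right_eq_mul.1 h)
    rw [h1]
    rfl
  r1 := by
    intro a
    have h := cc_mul E a 1
    rw [sc_one, mul_one, mul_one] at h
    have h1 := E.eq_zero (right_eq_mul.1 h)
    rw [h1]
    rfl
  co := by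
    intro a b c
    have h1 := cc_mul E a b
    have h2 := cc_mul E (a * b) c
    have h3 := cc_mul E b c
    have h4 := cc_mul E a (b * c)
    have e1 : sc Z a * sc Z b * sc Z c = E.z (cc E (a * b) c + cc E a b) * sc Z (a * b * c) := by
      rw [h1, mul_assoc, h2, ← mul_assoc, ← E.add, add_comm]
    have e2 : sc Z a * sc Z b * sc Z c = E.z (cc E b c + cc E a (b * c)) * sc Z (a * b * c) := by
      rw [mul_assoc, h3, ← mul_assoc, ← E.cen, mul_assoc, h4, ← mul_assoc, ← E.add, mul_assoc a b c]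
    have e3 := E.inj (mul_right_cancel (e2.symm.trans e1))
    exact congrFun e3 k

/-- the commutator of lifts -/
def kc (r s : G ⧸ Z) : Fin w → ZMod p := fun k => iv (fun r s => cc E r s k) r s

theorem kc_eq (r s : G ⧸ Z) : kc E r s = cc E r s - cc E s r := rfl

theorem lift_ex (g : G) : ∃ a, g = E.z a * sc Z (QuotientGroup.mk g) := by
  have h : g * (sc Z (QuotientGroup.mk g))⁻¹ ∈ Z := by
    rw [← QuotientGroup.eq_one_iff, QuotientGroup.mk_mul, QuotientGroup.mk_inv, sc_mk, mul_inv_cancel]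
  obtain ⟨a, ha⟩ := (E.mem _).1 h
  exact ⟨a, by rw [ha, inv_mul_cancel_right]⟩

theorem kc_comm (g h : G) (hc : (QuotientGroup.mk g : G ⧸ Z) * QuotientGroup.mk h = QuotientGroup.mk h * QuotientGroup.mk g) :
    E.z (kc E (QuotientGroup.mk g) (QuotientGroup.mk h)) = g * h * g⁻¹ * h⁻¹ := by
  obtain ⟨a, ha⟩ := lift_ex E g
  obtain ⟨b, hb⟩ := lift_ex E h
  have h1 := cc_mul E (QuotientGroup.mk g) (QuotientGroup.mk h)
  have h2 := cc_mul E (QuotientGroup.mk h) (QuotientGroup.mk g)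
  rw [← hc] at h2
  have h3 : sc Z (QuotientGroup.mk g) * sc Z (QuotientGroup.mk h) =
      E.z (kc E (QuotientGroup.mk g) (QuotientGroup.mk h)) * (sc Z (QuotientGroup.mk h) * sc Z (QuotientGroup.mk g)) := by
    rw [h2, kc_eq, E.sub, mul_assoc (E.z _), inv_mul_cancel_left, h1]
  obtain ⟨x, hx⟩ : ∃ x, x = sc Z (QuotientGroup.mk g) := ⟨_, rfl⟩
  obtain ⟨y, hy⟩ : ∃ y, y = sc Z (QuotientGroup.mk h) := ⟨_, rfl⟩
  obtain ⟨c, hcd⟩ : ∃ c, c = E.z (kc E (QuotientGroup.mk g) (QuotientGroup.mk h)) := ⟨_, rfl⟩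
  rw [← hx, ← hy, ← hcd] at h3
  rw [← hx] at ha
  rw [← hy] at hb
  rw [← hcd, eq_mul_inv_iff_mul_eq, eq_mul_inv_iff_mul_eq]
  have ca : ∀ g, E.z a * g = g * E.z a := E.cen a
  have cb : ∀ g, E.z b * g = g * E.z b := E.cen b
  have cz : ∀ g, c * g = g * c := by
    rw [hcd]
    exact E.cen _
  rw [ha, hb]
  calc c * (E.z b * y) * (E.z a * x) = c * (E.z b * (y * (E.z a * x))) := by group
    _ = c * (E.z b * ((E.z a * x) * 1 * ((E.z a * x)⁻¹ * y * (E.z a * x)))) := by group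
    _ = E.z a * (E.z b * (c * (y * x))) := by
        have e1 : E.z a * x * 1 * ((E.z a * x)⁻¹ * y * (E.z a * x)) = y * (E.z a * x) := by group
        rw [e1, ← mul_assoc y, ← ca y, mul_assoc (E.z a), ← mul_assoc (E.z b), ← ca (E.z b), mul_assoc (E.z a),
          ← mul_assoc c, cz, mul_assoc (E.z a), ← mul_assoc c, cz, mul_assoc (E.z b)]
    _ = E.z a * (E.z b * (x * y)) := by rw [h3]
    _ = E.z a * x * (E.z b * y) := by
        rw [← mul_assoc (E.z b), cb x]
        simp only [mul_assoc]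

theorem kc_mul_right (a r s : G ⧸ Z) (h1 : a * r = r * a) (h2 : a * s = s * a) : kc E a (r * s) = kc E a r + kc E a s := by
  obtain ⟨a, rfl⟩ := QuotientGroup.mk_surjective a
  obtain ⟨r, rfl⟩ := QuotientGroup.mk_surjective r
  obtain ⟨s, rfl⟩ := QuotientGroup.mk_surjective s
  apply E.inj
  rw [E.add, kc_comm E a r h1, kc_comm E a s h2]
  have h3 := kc_comm E a (r * s) (by
    rw [QuotientGroup.mk_mul, ← mul_assoc, h1, mul_assoc, h2, mul_assoc])
  rw [QuotientGroup.mk_mul] at h3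
  rw [h3]
  have h4 : ∀ g, a * s * a⁻¹ * s⁻¹ * g = g * (a * s * a⁻¹ * s⁻¹) := by
    intro g
    rw [← kc_comm E a s h2]
    exact E.cen _ g
  calc a * (r * s) * a⁻¹ * (r * s)⁻¹ = a * r * a⁻¹ * ((a * s * a⁻¹ * s⁻¹) * r⁻¹) := by group
    _ = a * r * a⁻¹ * (r⁻¹ * (a * s * a⁻¹ * s⁻¹)) := by rw [h4]
    _ = _ := by group

theorem kc_symm (r s : G ⧸ Z) : kc E s r = -kc E r s := by
  rw [kc_eq, kc_eq, neg_sub]

theorem kc_mul_left (a r s : G ⧸ Z) (h1 : r * a = a * r) (h2 : s * a = a * s) : kc E (r * s) a = kc E r a + kc E s a := by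
  rw [kc_symm E a (r * s), kc_mul_right E a r s h1.symm h2.symm, neg_add, ← kc_symm, ← kc_symm]

theorem kc_conj (a b r : G ⧸ Z) (h : a * b = b * a) : kc E (r * a * r⁻¹) (r * b * r⁻¹) = kc E a b := by
  obtain ⟨a, rfl⟩ := QuotientGroup.mk_surjective a
  obtain ⟨b, rfl⟩ := QuotientGroup.mk_surjective b
  obtain ⟨r, rfl⟩ := QuotientGroup.mk_surjective r
  apply E.inj
  have e : ∀ x : G, (QuotientGroup.mk r : G ⧸ Z) * QuotientGroup.mk x * (QuotientGroup.mk r)⁻¹ = QuotientGroup.mk (r * x * r⁻¹) :=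
    fun x => by rw [QuotientGroup.mk_mul, QuotientGroup.mk_mul, QuotientGroup.mk_inv]
  rw [e, e, kc_comm E a b h, kc_comm E (r * a * r⁻¹) (r * b * r⁻¹) (by
    rw [← e, ← e]
    calc (QuotientGroup.mk r : G ⧸ Z) * QuotientGroup.mk a * (QuotientGroup.mk r)⁻¹ *
          (QuotientGroup.mk r * QuotientGroup.mk b * (QuotientGroup.mk r)⁻¹) =
          QuotientGroup.mk r * (QuotientGroup.mk a * QuotientGroup.mk b) * (QuotientGroup.mk r)⁻¹ := by group
      _ = QuotientGroup.mk r * (QuotientGroup.mk b * QuotientGroup.mk a) * (QuotientGroup.mk r)⁻¹ := by rw [h]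
      _ = _ := by group)]
  have h4 : ∀ g, a * b * a⁻¹ * b⁻¹ * g = g * (a * b * a⁻¹ * b⁻¹) := by
    intro g
    rw [← kc_comm E a b h]
    exact E.cen _ g
  calc r * a * r⁻¹ * (r * b * r⁻¹) * (r * a * r⁻¹)⁻¹ * (r * b * r⁻¹)⁻¹ = r * ((a * b * a⁻¹ * b⁻¹) * r⁻¹) := by group
    _ = r * (r⁻¹ * (a * b * a⁻¹ * b⁻¹)) := by rw [h4]
    _ = _ := by group

end H57.GE
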