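import Mathlib

/-!
# [H57 GE TN] The group generated by the elements of least index (group theory of theorem (M_c), MP_b39724_nt) (120 lines)

`I` is a set of elements of order dividing `p`, stable under conjugation, whose mutual commutators are central in `G`; `T = closure I`.
`tn_normal`: `Subgroup.closure` of a conjugation stable set (`Subgroup.closure_induction`).
`tn_comm`: for fixed `h ∈ I` the set of the `x` with `[x, h]` central is closed under products (`[x x', h] = x [x', h] x⁻¹ [x, h] = [x', h] [x, h]`) and inverses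
(`[x⁻¹, h] = x⁻¹ [x, h]⁻¹ x`), so it contains `T`; then the same in the second variable.
`tn_comm_pow`: `x ↦ [x, y]` is multiplicative on `T` (values central), so it is enough to take `x ∈ I`, and then `[x, y]^p = [x^p, y] = 1`.
`tn_center`, `tn_zpow`: `⁅T, T⁆` is the closure of the commutators (`Subgroup.commutator_def`), central elements with `p`-th power `1` form a subgroup.
`tn_pow`: modulo `Z = ⁅T, T⁆` (normal) `T` is commutative, so the `x ∈ T` with `x^p ∈ Z` form a subgroup (`(x y)^p ≡ x^p y^p`; e.g. in `G ⧸ Z`: `Commute.mul_pow`).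
`tn_pgroup`: `x^(p^2) = 1` for `x ∈ T` (`tn_pow`, `tn_zpow`).
`ge_cop`: induction over `k` (`k = 0`: `x = 1`). `y = x * g * x⁻¹ * g⁻¹`: `y ∈ T` (`T` normal), `y ∈ upperCentralSeries G (k - 1)` (definition of the
series: `Subgroup.mem_upperCentralSeries_succ_iff` or the like; up to inverse / order of the commutator), so `y` commutes with `g` by induction; `x g x⁻¹ = y g`,
take the power `m = orderOf g`: `1 = x g^m x⁻¹ = (y g)^m = y^m g^m = y^m`; `y` has `p`-power order (`hT`), `m` is prime to `p`, so `y = 1`.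
-/

set_option autoImplicit false

namespace H57.GE

open scoped commutatorElement

section

variable {G : Type} [Group G] {p : ℕ} {I : Set G}

theorem tn_normal (h2 : ∀ g ∈ I, ∀ h : G, h * g * h⁻¹ ∈ I) : (Subgroup.closure I).Normal := by
  refine ⟨fun n hn g => ?_⟩
  refine Subgroup.closure_induction (p := fun x _ => g * x * g⁻¹ ∈ Subgroup.closure I) ?_ ?_ ?_ ?_ hn
  · intro x hx
    exact Subgroup.subset_closure (h2 x hx g)
  · rw [mul_one, mul_inv_cancel]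
    exact one_mem _
  · intro x y _ _ hx hy
    have e : g * (x * y) * g⁻¹ = (g * x * g⁻¹) * (g * y * g⁻¹) := by group
    rw [e]
    exact mul_mem hx hy
  · intro x _ hx
    have e : g * x⁻¹ * g⁻¹ = (g * x * g⁻¹)⁻¹ := by group
    rw [e]
    exact inv_mem hx

private theorem tn_cm (x x' y : G) : ⁅x * x', y⁆ = x * ⁅x', y⁆ * x⁻¹ * ⁅x, y⁆ := by
  simp only [commutatorElement_def]
  group

private theorem tn_ci (x y : G) : ⁅x⁻¹, y⁆ = x⁻¹ * ⁅x, y⁆⁻¹ * x := by
  simp only [commutatorElement_def]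
  group

private theorem tn_cj {z : G} (hz : z ∈ Subgroup.center G) (x : G) : x * z * x⁻¹ = z := by
  rw [Subgroup.mem_center_iff.1 hz x, mul_inv_cancel_right]

private theorem tn_left {y : G} {S : Set G} (h : ∀ x ∈ S, ⁅x, y⁆ ∈ Subgroup.center G) :
    ∀ x ∈ Subgroup.closure S, ⁅x, y⁆ ∈ Subgroup.center G := by
  intro x hx
  refine Subgroup.closure_induction (p := fun x _ => ⁅x, y⁆ ∈ Subgroup.center G) ?_ ?_ ?_ ?_ hx
  · exact h
  · rw [commutatorElement_one_left]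
    exact one_mem _
  · intro a b _ _ ha hb
    rw [tn_cm, tn_cj hb]
    exact mul_mem hb ha
  · intro a _ ha
    have e := tn_cj (inv_mem ha) a⁻¹
    rw [inv_inv] at e
    rw [tn_ci, e]
    exact inv_mem ha

private theorem tn_swap {x y : G} (h : ⁅x, y⁆ ∈ Subgroup.center G) : ⁅y, x⁆ ∈ Subgroup.center G := by
  rw [← commutatorElement_inv]
  exact inv_mem h

private theorem tn_cen (h3 : ∀ g ∈ I, ∀ h ∈ I, ∀ k : G, k * (g * h * g⁻¹ * h⁻¹) = g * h * g⁻¹ * h⁻¹ * k) :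
    ∀ x ∈ Subgroup.closure I, ∀ y ∈ Subgroup.closure I, ⁅x, y⁆ ∈ Subgroup.center G := by
  have h0 : ∀ x ∈ I, ∀ y ∈ I, ⁅x, y⁆ ∈ Subgroup.center G := fun x hx y hy =>
    Subgroup.mem_center_iff.2 (h3 x hx y hy)
  have h1 : ∀ y ∈ I, ∀ x ∈ Subgroup.closure I, ⁅x, y⁆ ∈ Subgroup.center G := fun y hy =>
    tn_left fun x hx => h0 x hx y hy
  intro x hx y hy
  exact tn_swap (tn_left (y := x) (S := I) (fun z hz => tn_swap (h1 z hz x hx)) y hy)

theorem tn_comm (h3 : ∀ g ∈ I, ∀ h ∈ I, ∀ k : G, k * (g * h * g⁻¹ * h⁻¹) = g * h * g⁻¹ * h⁻¹ * k) :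
    ∀ x ∈ Subgroup.closure I, ∀ y ∈ Subgroup.closure I, ∀ k : G,
      k * (x * y * x⁻¹ * y⁻¹) = x * y * x⁻¹ * y⁻¹ * k := fun x hx y hy =>
  Subgroup.mem_center_iff.1 (tn_cen h3 x hx y hy)

private theorem tn_pw {x y : G} (h : ⁅x, y⁆ ∈ Subgroup.center G) (n : ℕ) : ⁅x ^ n, y⁆ = ⁅x, y⁆ ^ n := by
  induction n with
  | zero => rw [pow_zero, pow_zero, commutatorElement_one_left]
  | succ n ih => rw [pow_succ, tn_cm, tn_cj h, ih, pow_succ']

private theorem tn_cp (h1 : ∀ g ∈ I, g ^ p = 1)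
    (h3 : ∀ g ∈ I, ∀ h ∈ I, ∀ k : G, k * (g * h * g⁻¹ * h⁻¹) = g * h * g⁻¹ * h⁻¹ * k) :
    ∀ x ∈ Subgroup.closure I, ∀ y ∈ Subgroup.closure I, ⁅x, y⁆ ^ p = 1 := by
  intro x hx y hy
  have hc := tn_cen h3
  have key : ⁅x, y⁆ ∈ Subgroup.center G ∧ ⁅x, y⁆ ^ p = 1 := by
    refine Subgroup.closure_induction (p := fun x _ => ⁅x, y⁆ ∈ Subgroup.center G ∧ ⁅x, y⁆ ^ p = 1) ?_ ?_ ?_ ?_ hx
    · intro a ha
      have h := hc a (Subgroup.subset_closure ha) y hy
      refine ⟨h, ?_⟩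
      rw [← tn_pw h, h1 a ha, commutatorElement_one_left]
    · rw [commutatorElement_one_left]
      exact ⟨one_mem _, one_pow _⟩
    · rintro a b _ _ ⟨ha, ha'⟩ ⟨hb, hb'⟩
      rw [tn_cm, tn_cj hb]
      refine ⟨mul_mem hb ha, ?_⟩
      have hcom : Commute ⁅b, y⁆ ⁅a, y⁆ := Subgroup.mem_center_iff.1 ha ⁅b, y⁆
      rw [hcom.mul_pow, ha', hb', one_mul]
    · rintro a _ ⟨ha, ha'⟩
      have e := tn_cj (inv_mem ha) a⁻¹
      rw [inv_inv] at e
      rw [tn_ci, e]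
      exact ⟨inv_mem ha, by rw [inv_pow, ha', inv_one]⟩
  exact key.2

theorem tn_comm_pow (h1 : ∀ g ∈ I, g ^ p = 1)
    (h3 : ∀ g ∈ I, ∀ h ∈ I, ∀ k : G, k * (g * h * g⁻¹ * h⁻¹) = g * h * g⁻¹ * h⁻¹ * k) :
    ∀ x ∈ Subgroup.closure I, ∀ y ∈ Subgroup.closure I, (x * y * x⁻¹ * y⁻¹) ^ p = 1 := tn_cp h1 h3

theorem tn_center (h3 : ∀ g ∈ I, ∀ h ∈ I, ∀ k : G, k * (g * h * g⁻¹ * h⁻¹) = g * h * g⁻¹ * h⁻¹ * k) :
    ⁅Subgroup.closure I, Subgroup.closure I⁆ ≤ Subgroup.center G :=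
  Subgroup.commutator_le.2 (tn_cen h3)

theorem tn_zpow (h1 : ∀ g ∈ I, g ^ p = 1)
    (h3 : ∀ g ∈ I, ∀ h ∈ I, ∀ k : G, k * (g * h * g⁻¹ * h⁻¹) = g * h * g⁻¹ * h⁻¹ * k) :
    ∀ z ∈ ⁅Subgroup.closure I, Subgroup.closure I⁆, z ^ p = 1 := by
  let W : Subgroup G :=
    { carrier := {z | z ∈ Subgroup.center G ∧ z ^ p = 1}
      mul_mem' := by
        rintro a b ⟨ha, ha'⟩ ⟨hb, hb'⟩
        refine ⟨mul_mem ha hb, ?_⟩
        have hcom : Commute a b := Subgroup.mem_center_iff.1 hb a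
        rw [hcom.mul_pow, ha', hb', one_mul]
      one_mem' := ⟨one_mem _, one_pow _⟩
      inv_mem' := by
        rintro a ⟨ha, ha'⟩
        exact ⟨inv_mem ha, by rw [inv_pow, ha', inv_one]⟩ }
  have h : ⁅Subgroup.closure I, Subgroup.closure I⁆ ≤ W :=
    Subgroup.commutator_le.2 fun x hx y hy => ⟨tn_cen h3 x hx y hy, tn_cp h1 h3 x hx y hy⟩
  exact fun z hz => (h hz).2

theorem tn_pow (h1 : ∀ g ∈ I, g ^ p = 1) (h2 : ∀ g ∈ I, ∀ h : G, h * g * h⁻¹ ∈ I) :
    ∀ x ∈ Subgroup.closure I, x ^ p ∈ ⁅Subgroup.closure I, Subgroup.closure I⁆ := by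
  have hn : (Subgroup.closure I).Normal := tn_normal h2
  have hZ : (⁅Subgroup.closure I, Subgroup.closure I⁆).Normal := inferInstance
  intro x hx
  refine Subgroup.closure_induction (p := fun x _ => x ^ p ∈ ⁅Subgroup.closure I, Subgroup.closure I⁆) ?_ ?_ ?_ ?_ hx
  · intro a ha
    rw [h1 a ha]
    exact one_mem _
  · rw [one_pow]
    exact one_mem _
  · intro a b ha hb ha' hb'
    rw [← QuotientGroup.eq_one_iff] at ha' hb' ⊢
    have hcom : Commute (a : G ⧸ ⁅Subgroup.closure I, Subgroup.closure I⁆) (b : G ⧸ ⁅Subgroup.closure I, Subgroup.closure I⁆) := by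
      have h4 : ((⁅a, b⁆ : G) : G ⧸ ⁅Subgroup.closure I, Subgroup.closure I⁆) = 1 :=
        (QuotientGroup.eq_one_iff _).2 (Subgroup.commutator_mem_commutator ha hb)
      rw [← commutatorElement_eq_one_iff_commute]
      exact h4
    rw [QuotientGroup.mk_pow, QuotientGroup.mk_mul, hcom.mul_pow, ← QuotientGroup.mk_pow, ← QuotientGroup.mk_pow, ha',
      hb', one_mul]
  · intro a _ ha'
    rw [inv_pow]
    exact inv_mem ha'

theorem tn_pgroup (h1 : ∀ g ∈ I, g ^ p = 1) (h2 : ∀ g ∈ I, ∀ h : G, h * g * h⁻¹ ∈ I)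
    (h3 : ∀ g ∈ I, ∀ h ∈ I, ∀ k : G, k * (g * h * g⁻¹ * h⁻¹) = g * h * g⁻¹ * h⁻¹ * k) :
    IsPGroup p (Subgroup.closure I) := by
  rintro ⟨g, hg⟩
  refine ⟨2, Subtype.ext ?_⟩
  show g ^ (p ^ 2) = 1
  rw [pow_two, pow_mul]
  exact tn_zpow h1 h3 _ (tn_pow h1 h2 g hg)

end

theorem ge_cop {G : Type} [Group G] {p : ℕ} (hp : p.Prime) (T : Subgroup G) (hn : T.Normal) (hT : IsPGroup p T) (k : ℕ) :
    ∀ x ∈ T, x ∈ Subgroup.upperCentralSeries G k → ∀ g : G, (orderOf g).Coprime p → g * x = x * g := by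
  induction k with
  | zero =>
    intro x _ hx g _
    rw [Subgroup.upperCentralSeries_zero, Subgroup.mem_bot] at hx
    rw [hx, mul_one, one_mul]
  | succ k ih =>
    intro x hxT hx g hg
    have hx2 : ⁅x, g⁆ ∈ Subgroup.upperCentralSeries G k := Subgroup.mem_upperCentralSeries_succ_iff.1 hx g
    obtain ⟨y, hy⟩ : ∃ y, y = ⁅x, g⁆ := ⟨_, rfl⟩
    have hyT : y ∈ T := by
      have e : y = x * (g * x⁻¹ * g⁻¹) := by
        rw [hy, commutatorElement_def]
        group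
      rw [e]
      exact mul_mem hxT (hn.conj_mem _ (inv_mem hxT) g)
    rw [← hy] at hx2
    have hcom : Commute y g := (ih y hyT hx2 g hg).symm
    have h1 : x * g * x⁻¹ = y * g := by
      rw [hy, commutatorElement_def]
      group
    have h2 : y ^ orderOf g = 1 := by
      have e1 : (x * g * x⁻¹) ^ orderOf g = 1 := by
        rw [conj_pow, pow_orderOf_eq_one, mul_one, mul_inv_cancel]
      rw [h1, hcom.mul_pow, pow_orderOf_eq_one, mul_one] at e1
      exact e1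
    obtain ⟨j, hj⟩ := hT ⟨y, hyT⟩
    have h3 : y ^ (p ^ j) = 1 := congrArg Subtype.val hj
    have h4 : y = 1 := by
      rw [← orderOf_eq_one_iff]
      exact Nat.eq_one_of_dvd_coprimes (hg.pow_right j) (orderOf_dvd_of_pow_eq_one h2) (orderOf_dvd_of_pow_eq_one h3)
    rw [h4, one_mul] at h1
    calc g * x = (x * g * x⁻¹) * x := by rw [h1]
      _ = x * g := by group

end H57.GE
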